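import Pool.Agent.H84.SF.Geo2

/-!
# MP_70ba79_ag, THEOREM S, chapter 11: row DSI (the equation along `D`, an identity)
-/

set_option autoImplicit false

namespace Pool.Agent.H63.SF

open MvPolynomial SC
open Pool.Agent.H84.SM (cr dt dp)
open Pool.Agent.H84.SF

theorem eval_scale {F : Type} [Field F] (b : MvPolynomial (Fin 3) F) (n : ℕ)
    (hb : b.IsHomogeneous n) (c : F) (y : Fin 3 → F) :
    eval (fun i => c * y i) b = c ^ n * eval y b := by
  rw [eval_eq', eval_eq', Finset.mul_sum]
  refine Finset.sum_congr rfl fun d hd => ?_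
  have h1 : d.degree = n := by
    by_contra h
    exact (mem_support_iff.1 hd) (hb.coeff_eq_zero h)
  have h2 : ∑ i, d i = n := by
    rw [← h1, Finsupp.degree_eq_sum]
  simp_rw [mul_pow]
  rw [Finset.prod_mul_distrib, Finset.prod_pow_eq_pow_sum, h2]
  ring

theorem pf_DSI : T_DSI := by
  intro F _ δ m u g y e G A J κ H b hb hug hgy hdg hge
  set ρ : Fin 3 → F := cr y e with hρ
  have hcr : ∀ i, cr g ρ i = κ * y i := by
    intro i
    have h1 : cr g ρ i = (dp g e) * y i - (dp g y) * e i := by
      rw [hρ]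
      fin_cases i <;> simp [cr, dp, Fin.sum_univ_three] <;> ring
    rw [h1, hge, hgy, zero_mul, sub_zero]
  have heval : eval ρ (aeval (fun i => C (J ^ 2) * cr (fun i => C (g i)) X i) b) =
      J ^ 6 * κ ^ 3 * eval y b := by
    have h1 : eval ρ (aeval (fun i => C (J ^ 2) * cr (fun i => C (g i)) X i) b) =
        eval (fun i => J ^ 2 * κ * y i) b := by
      rw [← MvPolynomial.coe_aeval_eq_eval, ← MvPolynomial.coe_aeval_eq_eval]
      have h2 : ((aeval ρ : MvPolynomial (Fin 3) F →ₐ[F] F).comp
          (aeval (fun i => C (J ^ 2) * cr (fun i => C (g i)) X i))) =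
          aeval (fun i => J ^ 2 * κ * y i) := by
        apply MvPolynomial.algHom_ext
        intro i
        rw [AlgHom.comp_apply, aeval_X, aeval_X, map_mul]
        have h3 : (aeval ρ : MvPolynomial (Fin 3) F →ₐ[F] F)
            (cr (fun i => C (g i)) X i) = cr g ρ i := by
          simp [cr]
        rw [h3, hcr, mul_assoc]
        simp
      exact congrArg (fun f : MvPolynomial (Fin 3) F →ₐ[F] F => f b) h2
    rw [h1, eval_scale b 3 hb]
    ring
  have hhq : eval ρ (Pool.Agent.H92.SF.hq (fun i j => C (H i j)) (cr (fun i => C (g i)) X)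
        (cr (fun i => C (g i)) X)) = κ ^ 2 * ∑ i, ∑ j, H i j * y i * y j := by
    have h1 : ∀ i, eval ρ (cr (fun i => C (g i)) X i) = κ * y i := by
      intro i
      rw [← hcr i]
      simp [cr]
    rw [Pool.Agent.H92.SF.hq, map_sum, Finset.mul_sum]
    refine Finset.sum_congr rfl fun i _ => ?_
    rw [map_sum, Finset.mul_sum]
    refine Finset.sum_congr rfl fun j _ => ?_
    rw [map_mul, map_mul, h1, h1, eval_C]
    ring
  have hdpu : eval ρ (dp (fun i => C (u i)) X) = dp u ρ := by
    simp [dp]
  have hder : dp g (fun i => δ (y i)) = - ∑ i, ∑ j, H i j * y i * y j := by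
    have h1 := congrArg δ hgy
    rw [dp, map_sum, map_zero] at h1
    have h2 : ∀ i, δ (g i * y i) = g i * δ (y i) + y i * ∑ j, H j i * y j := by
      intro i
      rw [Derivation.leibniz, hdg i, smul_eq_mul, smul_eq_mul]
    rw [Finset.sum_congr rfl (fun i _ => h2 i), Finset.sum_add_distrib] at h1
    have h3 : ∑ i, y i * ∑ j, H j i * y j = ∑ i, ∑ j, H i j * y i * y j := by
      rw [Finset.sum_comm]
      refine Finset.sum_congr rfl fun i _ => ?_
      rw [Finset.mul_sum]
      refine Finset.sum_congr rfl fun j _ => ?_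
      ring
    rw [h3] at h1
    rw [dp]
    exact eq_neg_of_add_eq_zero_left h1
  have htrip : κ * dt u y (fun i => δ (y i)) =
      dp u ρ * dp g (fun i => δ (y i)) - dp u g * dp ρ (fun i => δ (y i)) := by
    have h1 : κ * dt u y (fun i => δ (y i)) =
        dt u (fun i => κ * y i) (fun i => δ (y i)) := by
      simp [dt, dp, cr, Fin.sum_univ_three]
      ring
    have h2 : (fun i => κ * y i) = cr g ρ := by
      funext i; rw [hcr]
    rw [h1, h2]
    simp [dt, dp, cr, Fin.sum_univ_three]
    ring
  rw [map_sub, heval, map_mul, map_mul, eval_C, hhq, hdpu]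
  rw [hug, hder] at htrip
  linear_combination (J ^ 6 * κ ^ 2 * A) * htrip

end Pool.Agent.H63.SF
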